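import Pool.Agent.Helper25.Ind2.All

/-!
# All indicators of functions in `N_ρ`, for every `ρ > 0`
-/

namespace Pool.Agent.Results.MP_2b5fe2_an.AllOrders

open Helper25.Ind Pool.Agent.IND2I

/-- Let `ρ > 0` and let `h` be an extended real valued function on the line. There is an entire
function of order exactly `ρ` with all zeros negative whose indicator with respect to `r^ρ` is `h`
if and only if one of the following holds:
`ρ = p` is an integer and `h θ = A cos pθ + B sin pθ` with real `A`, `B`;
`ρ = p` is an integer and `IntCond p` holds for `h θ - B sin pθ` with some real `B`;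
`ρ` is not an integer and `h` is real valued, continuous, `2π`-periodic and satisfies the
majorisation inequalities `MajIneq ρ`;
`ρ` is not an integer and `InfCond ρ h` holds. -/
theorem result (ρ : ℝ) (hρ : 0 < ρ) (h : ℝ → EReal) :
    (∃ f, IsN ρ f ∧ ∀ θ, indicatorOf ρ f θ = h θ) ↔
      (∃ p : ℕ, ρ = p ∧
        ((∃ A B : ℝ, ∀ θ, h θ = ((A * Real.cos (p * θ) + B * Real.sin (p * θ) : ℝ) : EReal)) ∨
          ∃ B : ℝ, IntCond p (fun θ => h θ - ((B * Real.sin (p * θ) : ℝ) : EReal)))) ∨
      ((¬ ∃ p : ℕ, ρ = p) ∧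
        ((∃ g : ℝ → ℝ, (∀ θ, h θ = g θ) ∧ Continuous g ∧ (∀ θ, g (θ + 2 * Real.pi) = g θ) ∧
          MajIneq ρ g) ∨ InfCond ρ h)) :=
  all_orders ρ hρ h

end Pool.Agent.Results.MP_2b5fe2_an.AllOrders
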