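import Pool.Agent.Helper25.Ind.One

/-!
# All indicators (values in `[-∞, ∞]`) of functions in `N_1`
-/

namespace Pool.Agent.Results.MP_2b5fe2_an.OrderOne

open Helper25.Ind

/-- Complete explicit description of the indicators of the entire functions of order `1` with only
negative zeros. -/
theorem result (h : ℝ → EReal) :
    (∃ f, IsN 1 f ∧ ∀ θ, indicatorOf 1 f θ = h θ) ↔
      (∃ A B : ℝ, ∀ θ, h θ = ((A * Real.cos θ + B * Real.sin θ : ℝ) : EReal)) ∨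
      ∃ (τ : ℝ) (c : EReal) (B : ℝ), Real.pi / 4 ≤ τ ∧ τ ≤ Real.pi / 2 ∧
        (τ = Real.pi / 4 → c = ⊥) ∧ (τ = Real.pi / 2 → 0 ≤ c) ∧
        (∀ θ, h (θ + 2 * Real.pi) = h θ) ∧
        (∀ θ, |θ| < τ → h θ = ⊥) ∧ (∀ θ, τ < |θ| → |θ| ≤ Real.pi → h θ = ⊤) ∧
        h τ = c + B ∧ h (-τ) = c - B :=
  order_one h

end Pool.Agent.Results.MP_2b5fe2_an.OrderOne
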